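import Pool.Agent.KT3.StmtsD
import Pool.Agent.Helper13_NBT.IBF

/-! Squad KT3 (MP_e54c4c_gt), row LPT (helper42). -/

set_option autoImplicit false

open Matrix Filter Topology

noncomputable section

namespace Pool.Agent.KT3.H42

open Pool.Agent.PFS Pool.Agent.PFJ Pool.Agent.NBT

theorem lpt (_lfm : LfmStmt) : LptStmt := by
  intro n C Γ d h3 w hw φ hφ θ z c M' hθ hz hc hc1 hM
  have hI := h3.toHI
  have hCC : CC C Γ := hI.toHK.toCC
  have hC : PCone C := hCC.toPCone
  have hext : Ext C (w 0) := exv n C Γ hCC 3 (by norm_num) hI.toHK.maxc w hw.pes 0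
  have hm0 : w 0 ∈ BI C w I01 := hw.box.mem 0 (by decide)
  have hm1 : w 1 ∈ BI C w I01 := hw.box.mem 1 (by decide)
  have hcomp : (I01ᶜ : Finset (Fin 3)) = {2} := by decide
  have hk : ∀ m, M' • (w 0 + Real.exp (-θ m) • w 1) - z m ∈ closure C := by
    intro m
    have hv : M' • (w 0 + Real.exp (-θ m) • w 1) - z m ∈ BI C w I01 :=
      Submodule.sub_mem _ (Submodule.smul_mem _ _ (Submodule.add_mem _ hm0
        (Submodule.smul_mem _ _ hm1))) (hz m).mem
    refine (((Pool.Agent.NBT.H13.ibf n C hC 3 w hw.pes.1).1 I01 (BI C w I01) hw.box).2.2.1 _ hv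
      (fun _ => M') ?_).1
    rw [hcomp, Finset.sum_singleton]
    have e : M' • (w 0 + Real.exp (-θ m) • w 1) - z m + M' • w 2 =
        M' • (w 0 + Real.exp (-θ m) • w 1 + w 2) - z m := by
      rw [smul_add M' (w 0 + Real.exp (-θ m) • w 1) (w 2)]
      abel
    rw [e]
    exact hM m
  have hexp : Tendsto (fun m => Real.exp (-θ m)) atTop (𝓝 0) :=
    Real.tendsto_exp_atBot.comp (tendsto_neg_atTop_atBot.comp hθ)
  have hY : Tendsto (fun m => M' • (w 0 + Real.exp (-θ m) • w 1)) atTop (𝓝 (M' • w 0)) := by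
    have h1 := ((hexp.smul_const (w 1)).const_add (w 0)).const_smul M'
    rwa [zero_smul, add_zero] at h1
  obtain ⟨B, hB, hn⟩ := hC.normal
  obtain ⟨R, hR⟩ := hY.norm.bddAbove_range
  have hbd : ∀ m, z m ∈ Metric.closedBall (0 : V n) (B * R) := by
    intro m
    rw [mem_closedBall_zero_iff]
    exact (hn _ _ (hz m).cl (hk m)).trans
      (mul_le_mul_of_nonneg_left (hR ⟨m, rfl⟩) hB.le)
  refine tendsto_of_subseq_tendsto fun ns hns => ?_
  obtain ⟨y, -, ψ, hψ, hy⟩ := tendsto_subseq_of_bounded (Metric.isBounded_closedBall)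
    (fun k => hbd (ns k))
  refine ⟨ψ, ?_⟩
  have hsub : Tendsto (fun k => ns (ψ k)) atTop atTop := hns.comp hψ.tendsto_atTop
  have hycl : y ∈ closure C :=
    isClosed_closure.mem_of_tendsto hy (Eventually.of_forall fun k => (hz _).cl)
  have hy2 : M' • w 0 - y ∈ closure C :=
    isClosed_closure.mem_of_tendsto ((hY.comp hsub).sub hy)
      (Eventually.of_forall fun k => hk _)
  obtain ⟨a, ha⟩ := hext y hycl M' hy2
  have hφy : φ y = 1 := by
    have h1 : Tendsto (fun k => φ (z (ns (ψ k)))) atTop (𝓝 (φ y)) :=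
      ((LinearMap.continuous_of_finiteDimensional φ).tendsto y).comp hy
    have h2 : Tendsto (fun k => φ (z (ns (ψ k)))) atTop (𝓝 c) := hc.comp hsub
    rw [tendsto_nhds_unique h1 h2, hc1]
  have ha1 : a = 1 := by
    rw [ha, map_smul, hφ.one, smul_eq_mul, mul_one] at hφy
    exact hφy
  rw [ha1, one_smul] at ha
  rw [← ha]
  exact hy

end Pool.Agent.KT3.H42
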