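import Pool.Agent.KT3.StmtsM
import Pool.Agent.Helper13_NBT.IBF
import Pool.Agent.Helper64_NBT.IBI
import Pool.Agent.Helper10_PFJ.FMX
import Pool.Agent.Helper76_PFJ.UNF

/-! Squad KT3 (MP_e54c4c_gt), row PRC (helper42): all faces of the second pair along the leaf are
large. -/

set_option autoImplicit false

open Matrix Filter Topology

noncomputable section

namespace Pool.Agent.KT3.H42

open Pool.Agent.PFS Pool.Agent.PFJ Pool.Agent.NBT

theorem prc (wip : WipStmt) (wif : WifStmt) (lfi : LfiStmt) (lfm : LfmStmt) (lfo : LfoStmt)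
    (lfs : LfsStmt) (phe : PheStmt) (phu : PhuStmt) (anf : AnfStmt) (pra : PraStmt)
    (prb : PrbStmt) : PrcStmt := by
  intro n C Γ d q h3 w N y b b' hPR
  have hI := h3.toHI
  have hHK := hI.toHK
  have hCC : CC C Γ := hHK.toCC
  have hC : PCone C := hCC.toPCone
  have hw := hPR.an.wl
  obtain ⟨N', hAN'⟩ := hPR.an'
  have hw' := hAN'.wl
  obtain ⟨φ, hφ⟩ := phe n C Γ 3 hHK w hw.pes 0
  obtain ⟨φ2, hφ2⟩ := phe n C Γ 3 hHK w hw.pes 2
  obtain ⟨pr, hpr⟩ := wip n C Γ 3 I01 d hI w hw
  obtain ⟨pr', hpr'⟩ := wip n C Γ 3 I01 d hI (up w y) hw'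
  obtain ⟨-, hφy0, -⟩ := pra n C Γ d q h3 w N y b b' hPR
  have hφy : φ y = 1 := hφy0 φ hφ
  have hb' : 0 < b' := prb n C Γ d q h3 w N y b b' hPR
  have hw1 : up w y 1 = w 1 := Function.update_of_ne (by decide) _ _
  have hw2 : up w y 2 = w 2 := Function.update_of_ne (by decide) _ _
  have hw0 : up w y 0 = y := Function.update_self _ _ _
  have hw2ne : w 2 ≠ 0 := by
    intro h0
    have h1 := hφ2.one
    rw [h0, map_zero] at h1
    exact one_ne_zero h1.symm
  have hw2cl : w 2 ∈ closure C := hw.pes.1.cl 2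
  obtain ⟨hp2, hpu, -, -, -, -, -⟩ := wif n C Γ 3 I01 d hI w hw pr hpr
  have hpr2 : pr (w 2) = 0 := hp2 2 (by decide)
  obtain ⟨hf1, -, hlo⟩ := lfo n C Γ d h3 w (up w y) hw hw' hw1 hw2 φ pr pr' hφ hpr hpr'
  obtain ⟨haS, -, haL, haP, -⟩ := anf n C Γ d q h3 w N hPR.an φ hφ
  -- the functional of the second triangle
  have hψ : Ph C (up w y) 0 ((φ (up w y 0))⁻¹ • φ) :=
    ((phu n C Γ 3 hHK w hw.pes 0 φ hφ).2.2.2.2 (up w y) hw'.pes
      (fun j hj => Function.update_of_ne hj _ _)).2
  -- the claim for `φ x = 1`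
  have key : ∀ x, Lf C w x → φ x = 1 → q + 1 ≤ Module.finrank ℝ (BI C (up w x) I02) := by
    intro x hx hφx
    have hxF := hx.mem
    have hprx : pr x = x := hpr.idB x hxF
    obtain ⟨hx', hprx'⟩ := hlo x hx
    have hφx' : φ (pr' x) = 1 := by rw [hf1, hφx]
    obtain ⟨hwx, hBIx, -, -, -, -, -⟩ := (lfm n C Γ d h3 w hw).2 x hx
    obtain ⟨-, -, -, hext', hlam', -, -⟩ := (lfm n C Γ d h3 (up w y) hw').2 (pr' x) hx'
    have hx2 : up w x 2 = w 2 := Function.update_of_ne (by decide) _ _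
    have hx0 : up w x 0 = x := Function.update_self _ _ _
    have hsum : (∑ m ∈ Finset.univ.erase 1, up w x m) = x + w 2 := by
      have e : (Finset.univ.erase 1 : Finset (Fin 3)) = {0, 2} := by decide
      rw [e, Finset.sum_pair (by decide), hx0, hx2]
    have hfS : fS (up w x) I02 = x + w 2 := by
      rw [fS_pair _ (by decide), hx0, hx2]
    -- not in the cone
    have hnot : (x + w 2) + pr' x ∉ C := by
      intro hin
      have h1 := hpu _ hin
      rw [map_add, map_add, hprx, hpr2, hprx', add_zero] at h1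
      have h2 := (Pool.Agent.PFJ.H76.unf n C hC _ _ h1).1 (1 / 2) (by norm_num)
      have h4 : (1 / 2 : ℝ) • (x + x) = x := by
        rw [← two_smul ℝ x, smul_smul]
        norm_num
      rw [h4] at h2
      exact hx.non h2
    obtain ⟨M, hM, hMx⟩ := Pool.Agent.PFJ.H10.fmx n C Γ hCC 3 le_rfl hHK.maxc (up w x) 1 (pr' x)
      hwx.pes hlam' (by rw [hsum]; exact hnot)
    rw [hsum] at hMx
    have hxcl : x ∈ closure C := hx.cl
    have hfcl : x + w 2 ∈ closure C := hC.cl_add hxcl hw2cl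
    have hx'B : pr' x ∈ BI C (up w x) I02 := by
      unfold BI
      rw [hfS]
      exact (fcs n C hC (x + w 2) hfcl).2.1 (pr' x) hx'.cl M hMx
    obtain ⟨px, hpx⟩ := hPR.an.prj x hx
    obtain ⟨hIB, hfr, -, -⟩ := haP x hx px hpx
    have hEB : LinearMap.range px ≤ BI C (up w x) I02 :=
      ((Pool.Agent.NBT.H13.ibf n C hC 3 (up w x) hwx.pes.1).1 I02 _ hIB).2.1
    -- `x' - y ∈ N`
    have hyL : Lf C (up w y) y := by
      have := (lfm n C Γ d h3 (up w y) hw').1
      rwa [hw0] at this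
    have hA : pr' x - y ∈ N := by
      apply haS
      have h1 := lfs n C Γ d h3 (up w y) hw' _ hψ (pr' x - y)
        (Submodule.sub_mem _ hx'.mem hyL.mem) (by
          rw [LinearMap.smul_apply, map_sub, hφx', hφy, sub_self, smul_zero])
      rwa [hw1] at h1
    have hB : x - w 0 ∈ N := haL x (w 0) hx (lfm n C Γ d h3 w hw).1 (by rw [hφx, hφ.one])
    have hD : pr' x - x - b' • w 2 ∈ N := by
      have e : pr' x - x - b' • w 2 = (pr' x - y) - (x - w 0) + (y - w 0 - b' • w 2) := by abel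
      rw [e]
      exact N.add_mem (N.sub_mem hA hB) hPR.pn
    have hpxx : px (pr' x) = x + b' • w 2 := by
      have h1 := (hpx.ker _).2 hD
      rw [map_sub, map_sub, map_smul, hpx.fx, hpx.fv, sub_sub, sub_eq_zero] at h1
      exact h1
    have hnE : pr' x ∉ LinearMap.range px := by
      rintro ⟨z, hz⟩
      have h1 : px (pr' x) = pr' x := by rw [← hz, hpx.idm]
      rw [hpxx] at h1
      have h2 : (1 : ℝ) • pr' x - x ∈ closure C := by
        rw [one_smul, ← h1, add_sub_cancel_left]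
        exact hC.cl_smul hw2cl hb'.le
      obtain ⟨c, hc⟩ := hext' x hxcl 1 h2
      have h4 : φ x = c * φ (pr' x) := by
        conv_lhs => rw [hc, map_smul, smul_eq_mul]
      rw [hφx, hφx', mul_one] at h4
      rw [← h4, one_smul] at hc
      rw [← hc] at h1
      have h5 : b' • w 2 = 0 := by
        have := h1
        rwa [add_eq_left] at this
      rcases smul_eq_zero.1 h5 with h6 | h6
      · exact hb'.ne' h6
      · exact hw2ne h6
    have hlt : LinearMap.range px < BI C (up w x) I02 := by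
      refine lt_of_le_of_ne hEB fun h => hnE ?_
      rw [h]
      exact hx'B
    have := Submodule.finrank_lt_finrank_of_lt hlt
    omega
  -- the general case
  intro x hx
  obtain ⟨hwx, -, -, -, -, -, hpos⟩ := (lfm n C Γ d h3 w hw).2 x hx
  have hφx : 0 < φ x := (hpos φ hφ).1
  have hc : 0 < (φ x)⁻¹ := inv_pos.2 hφx
  have hx1 : Lf C w ((φ x)⁻¹ • x) := ((lfi n C Γ d h3 w hw x).2.2 _ hc).2 hx
  have h1 : φ ((φ x)⁻¹ • x) = 1 := by
    rw [map_smul, smul_eq_mul, inv_mul_cancel₀ hφx.ne']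
  have h2 := key _ hx1 h1
  have h4 := (Pool.Agent.NBT.H64.ibi n C Γ hCC 3 (up w x) (fun i => hwx.pes.1.cl i)).1
    (Function.update 1 0 (φ x)⁻¹) (fun i => by
      rcases eq_or_ne i 0 with h | h
      · rw [h, Function.update_self]; exact hc
      · rw [Function.update_of_ne h]; exact one_pos) I02
  have h5 : (fun i => (Function.update (1 : Fin 3 → ℝ) 0 (φ x)⁻¹) i • up w x i) =
      up w ((φ x)⁻¹ • x) := by
    funext i
    rcases eq_or_ne i 0 with h | h
    · rw [h, Function.update_self]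
      simp only [up, Function.update_self]
    · rw [Function.update_of_ne h]
      simp only [up, Function.update_of_ne h, Pi.one_apply, one_smul]
  rw [h5] at h4
  rwa [h4] at h2

end Pool.Agent.KT3.H42
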