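import Pool.Agent.KT3.StmtsA
import Pool.Agent.Helper13_NBT.IBF
import Pool.Agent.Helper28_NBT.IBL

/-! Squad KT3 (MP_e54c4c_gt), row WIC (helper42): walls are closed (adapted from
`Helper55_NBT/BIL.lean` of helper55). -/

set_option autoImplicit false

open Matrix Filter Topology

noncomputable section

namespace Pool.Agent.KT3.H42

open Pool.Agent.PFS Pool.Agent.PFJ Pool.Agent.NBT

theorem wic (fay : FayStmt) : WicStmt := by
  intro n C Γ K I d hI x w hx hlim hw
  have hCC : CC C Γ := hI.toHK.toCC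
  have hC : PCone C := hCC.toPCone
  have h3 : 3 ≤ K := hI.toHK.three
  have hF := fay n C Γ K hCC (by omega)
  have hpes : IsPES C Γ w := hF.cld x w (fun m => (hx m).pes) hlim hw
  -- (a)
  have ha : ∀ ψ : ℕ → ℕ, StrictMono ψ → ∃ θ : ℕ → ℕ, StrictMono θ ∧
      LimS (fun m => BI C (x (ψ (θ m))) I) (BI C w I) ∧ IB C w I (BI C w I) ∧
      Module.finrank ℝ (BI C w I) = d := by
    intro ψ hψ
    obtain ⟨θ, L', hθ, hL, hd⟩ := Pool.Agent.PFJ.H69.lsc n fun m => BI C (x (ψ m)) I
    refine ⟨θ, hθ, ?_⟩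
    have h1 : IB C w I L' := Pool.Agent.NBT.H28.ibl n C hC K (fun m => x (ψ (θ m))) w I
      (fun m => BI C (x (ψ (θ m))) I) L' (fun m => ((hx _).pes).1) hpes.1
      (fun l => (hlim l).comp (hψ.comp hθ).tendsto_atTop) (fun m => (hx _).box) hL
    have h2 : L' ≤ BI C w I := ((Pool.Agent.NBT.H13.ibf n C hC K w hpes.1).1 I L' h1).2.1
    have h3 : Module.finrank ℝ L' = d := by
      rw [← hd 0]
      exact (hx _).dim
    have h5 : Module.finrank ℝ (BI C w I) ≤ Module.finrank ℝ L' := by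
      rw [h3]
      exact hI.maxd w hpes
    have h4 := Submodule.eq_of_le_of_finrank_le h2 h5
    rw [← h4]
    exact ⟨hL, h1, h3⟩
  obtain ⟨θ₀, -, -, hbox, hdim⟩ := ha (fun m => m) (fun _ _ h => h)
  refine ⟨⟨hpes, hdim, hbox⟩, ?_, ?_⟩
  · intro v hv
    have hd : Tendsto (fun m => Metric.infDist v (BI C (x m) I : Set (V n))) atTop (𝓝 0) := by
      refine tendsto_of_subseq_tendsto fun ns hns => ?_
      obtain ⟨φ, hφ, hφ'⟩ := strictMono_subseq_of_tendsto_atTop hns
      obtain ⟨θ, hθ, hL, -, -⟩ := ha _ hφ'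
      obtain ⟨y, hy, hyl⟩ := hL.1 v hv
      refine ⟨fun m => φ (θ m), ?_⟩
      refine squeeze_zero (fun m => Metric.infDist_nonneg)
        (fun m => Metric.infDist_le_dist_of_mem (hy m)) ?_
      have := (tendsto_iff_dist_tendsto_zero.1 hyl)
      simpa only [dist_comm] using this
    have hz : ∀ m : ℕ, ∃ z ∈ (BI C (x m) I : Set (V n)),
        dist v z < Metric.infDist v (BI C (x m) I : Set (V n)) + 1 / ((m : ℝ) + 1) := fun m =>
      (Metric.infDist_lt_iff ⟨0, Submodule.zero_mem _⟩).1 (lt_add_of_pos_right _ (by positivity))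
    choose z hz1 hz2 using hz
    refine ⟨z, hz1, ?_⟩
    rw [tendsto_iff_dist_tendsto_zero]
    have h5 := hd.add tendsto_one_div_add_atTop_nhds_zero_nat
    rw [add_zero] at h5
    refine squeeze_zero (fun m => dist_nonneg) (fun m => ?_) h5
    rw [dist_comm]
    exact (hz2 m).le
  · intro φ y v hφ hy hyl
    obtain ⟨θ, hθ, hL, -, -⟩ := ha φ hφ
    exact hL.2 (fun m => m) (fun m => y (θ m)) v (fun _ _ h => h) (fun m => hy _)
      (hyl.comp hθ.tendsto_atTop)

end Pool.Agent.KT3.H42
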